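import Mathlib

/-!
Elementary facts about trees: the half tree determined by an oriented edge is only left through
that edge, and balls in a 3-regular graph have at most `4 ^ m` elements.
-/

namespace Pool.Agent.Lib.MP_7da865_gt

open SimpleGraph

variable {W : Type*} {T : SimpleGraph W}

/-- The half tree of the vertices nearer to `u'` than to `u`. -/
def half (T : SimpleGraph W) (u u' : W) : Set W := {t | T.dist t u' < T.dist t u}

lemma mem_half {u u' t : W} : t ∈ half T u u' ↔ T.dist t u' < T.dist t u := Iff.rfl

/-- Crossing the boundary of a half tree by one edge is only possible at the defining edge. -/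
lemma adj_cross (hT : T.IsTree) {u u' a b : W} (hu : T.Adj u u') (hab : T.Adj a b)
    (ha : a ∈ half T u u') (hb : b ∉ half T u u') : a = u' ∧ b = u := by
  classical
  have hc := hT.connected
  rw [mem_half] at ha hb
  push Not at hb
  -- geodesics
  obtain ⟨p, hp⟩ := hc.exists_walk_length_eq_dist u' a
  obtain ⟨r, hr⟩ := hc.exists_walk_length_eq_dist b u
  have hpC : ∀ x ∈ p.support, x ∈ half T u u' := by
    intro x hx
    rw [mem_half]
    have h1 : T.dist u' x ≤ (p.takeUntil x hx).length := dist_le _
    have h2 : T.dist x a ≤ (p.dropUntil x hx).length := dist_le _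
    have h3 : (p.takeUntil x hx).length + (p.dropUntil x hx).length = p.length := by
      rw [← Walk.length_append, Walk.take_spec]
    have h4 : T.dist a u ≤ T.dist a x + T.dist x u := hc.dist_triangle
    have e1 := T.dist_comm (u := u') (v := x)
    have e2 := T.dist_comm (u := x) (v := a)
    have e3 := T.dist_comm (u := u') (v := a)
    omega
  have hrC : ∀ x ∈ r.support, x ∉ half T u u' := by
    intro x hx
    rw [mem_half]
    push Not
    have h1 : T.dist b x ≤ (r.takeUntil x hx).length := dist_le _
    have h2 : T.dist x u ≤ (r.dropUntil x hx).length := dist_le _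
    have h3 : (r.takeUntil x hx).length + (r.dropUntil x hx).length = r.length := by
      rw [← Walk.length_append, Walk.take_spec]
    have h4 : T.dist b u' ≤ T.dist b x + T.dist x u' := hc.dist_triangle
    omega
  have hbr : T.IsBridge s(u', u) := by
    have := (isAcyclic_iff_forall_adj_isBridge.1 hT.isAcyclic) hu.symm
    exact this
  rw [isBridge_iff_forall_walk_mem_edges] at hbr
  have hmem := hbr (p.append (Walk.cons hab r))
  rw [Walk.edges_append, Walk.edges_cons, List.mem_append, List.mem_cons] at hmem
  have hu'C : u' ∈ half T u u' := by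
    rw [mem_half, dist_self]
    exact hc.pos_dist_of_ne hu.symm.ne
  have huC : u ∉ half T u u' := by
    rw [mem_half, dist_self]; omega
  rcases hmem with h | h | h
  · exact absurd (hpC u (Walk.snd_mem_support_of_mem_edges _ h)) huC
  · rw [Sym2.eq_iff] at h
    rcases h with ⟨h1, h2⟩ | ⟨h1, h2⟩
    · exact ⟨h1.symm, h2.symm⟩
    · have hb' : b ∈ half T u u' := by rw [← h1]; exact hu'C
      rw [mem_half] at hb'
      omega
  · exact absurd hu'C (hrC u' (Walk.fst_mem_support_of_mem_edges _ h))

/-- A jump out of a half tree is at least as long as the distance to the edge. -/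
lemma cut (hT : T.IsTree) {u u' a b : W} (hu : T.Adj u u')
    (ha : a ∈ half T u u') (hb : b ∉ half T u u') :
    T.dist a u ≤ T.dist a b ∧ T.dist b u ≤ T.dist a b := by
  classical
  have hc := hT.connected
  obtain ⟨p, hp⟩ := hc.exists_walk_length_eq_dist a b
  obtain ⟨d, hd, hd1, hd2⟩ := p.exists_boundary_dart (half T u u') ha hb
  have h := (adj_cross hT hu d.adj hd1 hd2).2
  have hmem : u ∈ p.support := by
    rw [← h]; exact p.dart_snd_mem_support_of_mem_darts hd
  have h1 : T.dist a u ≤ (p.takeUntil u hmem).length := dist_le _
  have h2 : T.dist u b ≤ (p.dropUntil u hmem).length := dist_le _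
  have h3 : (p.takeUntil u hmem).length + (p.dropUntil u hmem).length = p.length := by
    rw [← Walk.length_append, Walk.take_spec]
  have e1 := T.dist_comm (u := u) (v := b)
  omega

/-- Every vertex different from `u` is nearer to some neighbour of `u`. -/
lemma exists_half (hc : T.Connected) {u t : W} (h : t ≠ u) :
    ∃ u', T.Adj u u' ∧ t ∈ half T u u' := by
  obtain ⟨p, hp⟩ := hc.exists_walk_length_eq_dist u t
  cases p with
  | nil => exact absurd rfl h
  | cons hadj q =>
    rename_i x
    refine ⟨x, hadj, ?_⟩
    rw [mem_half]
    have h1 : T.dist x t ≤ q.length := dist_le _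
    rw [Walk.length_cons] at hp
    have e1 := T.dist_comm (u := u) (v := t)
    have e2 := T.dist_comm (u := x) (v := t)
    omega

/-- Balls in a graph of degree 3 have at most `4 ^ m` vertices. -/
lemma exists_ball (hc : T.Connected) (h3 : ∀ w, (T.neighborSet w).encard = 3) (v : W) (m : ℕ) :
    ∃ S : Finset W, S.card ≤ 4 ^ m ∧ ∀ t, T.dist v t ≤ m → t ∈ S := by
  classical
  have hfin : ∀ w, (T.neighborSet w).Finite := fun w => by
    apply Set.finite_of_encard_eq_coe (k := 3)
    rw [h3 w]; rfl
  induction m with
  | zero =>
    refine ⟨{v}, by simp, fun t ht => ?_⟩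
    rw [Finset.mem_singleton]
    have : T.dist v t = 0 := by omega
    rw [hc.dist_eq_zero_iff] at this
    exact this.symm
  | succ m ih =>
    obtain ⟨S, hS, hmem⟩ := ih
    refine ⟨S ∪ S.biUnion (fun w => (hfin w).toFinset), ?_, fun t ht => ?_⟩
    · calc (S ∪ S.biUnion (fun w => (hfin w).toFinset)).card
          ≤ S.card + (S.biUnion (fun w => (hfin w).toFinset)).card := Finset.card_union_le _ _
        _ ≤ S.card + S.card * 3 := by
            gcongr
            apply Finset.card_biUnion_le_card_mul
            intro w _
            have : ((hfin w).toFinset.card : ℕ∞) = 3 := by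
              rw [← Set.Finite.encard_eq_coe_toFinset_card, h3 w]
            have h' : (hfin w).toFinset.card = 3 := by exact_mod_cast this
            omega
        _ ≤ 4 ^ m + 4 ^ m * 3 := by gcongr
        _ = 4 ^ (m + 1) := by ring
    · rw [Finset.mem_union]
      by_cases hle : T.dist v t ≤ m
      · exact Or.inl (hmem t hle)
      · right
        have hne : v ≠ t := by
          rintro rfl
          simp at hle
        obtain ⟨x, hx, hx'⟩ := exists_half hc (u := t) (t := v) hne
        rw [mem_half] at hx'
        rw [Finset.mem_biUnion]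
        refine ⟨x, hmem x (by omega), ?_⟩
        simp only [Set.Finite.mem_toFinset, mem_neighborSet]
        exact hx.symm

end Pool.Agent.Lib.MP_7da865_gt
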