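import Mathlib
import Pool.Agent.Lib.MP_7da865_gt.Tree

/-!
The combinatorial core.  The boxes `(n, i)` are the dyadic intervals
`[i / 2 ^ n, (i + 1) / 2 ^ n]`; the children of `(n, i)` are `(n + 1, 2 * i)` and
`(n + 1, 2 * i + 1)`.
-/

namespace Pool.Agent.Lib.MP_7da865_gt

open SimpleGraph Finset

variable {W : Type*}

/-- The sum of `g` over the images of the depth `R` descendants of the box `(n, i)`. -/
def sm (F : ℕ → ℤ → W) (g : W → ℕ) : ℕ → ℕ → ℤ → ℕ
  | 0, n, i => g (F n i)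
  | R + 1, n, i => sm F g R (n + 1) (2 * i) + sm F g R (n + 1) (2 * i + 1)

variable {F : ℕ → ℤ → W}

lemma sm_succ (g : W → ℕ) (R n : ℕ) (i : ℤ) :
    sm F g (R + 1) n i = sm F g R (n + 1) (2 * i) + sm F g R (n + 1) (2 * i + 1) := rfl

lemma sm_add (g h : W → ℕ) : ∀ (R n : ℕ) (i : ℤ),
    sm F (fun t => g t + h t) R n i = sm F g R n i + sm F h R n i
  | 0, n, i => rfl
  | R + 1, n, i => by
    rw [sm_succ, sm_succ, sm_succ, sm_add g h R, sm_add g h R]; ring

lemma sm_mono {g h : W → ℕ} (hgh : ∀ t, g t ≤ h t) : ∀ (R n : ℕ) (i : ℤ),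
    sm F g R n i ≤ sm F h R n i
  | 0, n, i => hgh _
  | R + 1, n, i => by
    rw [sm_succ, sm_succ]
    exact Nat.add_le_add (sm_mono hgh R _ _) (sm_mono hgh R _ _)

lemma sm_const (c : ℕ) : ∀ (R n : ℕ) (i : ℤ), sm F (fun _ => c) R n i = c * 2 ^ R
  | 0, n, i => by simp [sm]
  | R + 1, n, i => by
    rw [sm_succ, sm_const c R, sm_const c R]; ring

lemma sm_mul (c : ℕ) (g : W → ℕ) : ∀ (R n : ℕ) (i : ℤ),
    sm F (fun t => c * g t) R n i = c * sm F g R n i
  | 0, n, i => rfl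
  | R + 1, n, i => by
    rw [sm_succ, sm_succ, sm_mul c g R, sm_mul c g R]; ring

lemma sm_sum {ι : Type*} (S : Finset ι) (g : ι → W → ℕ) : ∀ (R n : ℕ) (i : ℤ),
    sm F (fun t => ∑ x ∈ S, g x t) R n i = ∑ x ∈ S, sm F (g x) R n i
  | 0, n, i => rfl
  | R + 1, n, i => by
    rw [sm_succ, sm_sum S g R, sm_sum S g R, ← Finset.sum_add_distrib]
    rfl

/-- The number of depth `R` descendants of the box `(n, i)` that are mapped into `P`. -/
noncomputable def cnt (F : ℕ → ℤ → W) (P : Set W) (R n : ℕ) (i : ℤ) : ℕ :=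
  sm F (P.indicator fun _ => 1) R n i

lemma cnt_succ (P : Set W) (R n : ℕ) (i : ℤ) :
    cnt F P (R + 1) n i = cnt F P R (n + 1) (2 * i) + cnt F P R (n + 1) (2 * i + 1) := rfl

lemma cnt_zero (P : Set W) (n : ℕ) (i : ℤ) :
    cnt F P 0 n i = P.indicator (fun _ => 1) (F n i) := rfl

lemma cnt_mono {P Q : Set W} (h : P ⊆ Q) (R n : ℕ) (i : ℤ) : cnt F P R n i ≤ cnt F Q R n i := by
  apply sm_mono
  intro t
  classical
  simp only [Set.indicator_apply]
  split_ifs with h1 h2
  · exact le_rfl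
  · exact absurd (h h1) h2
  · exact Nat.zero_le _
  · exact le_rfl

lemma cnt_add_compl (P : Set W) (R n : ℕ) (i : ℤ) :
    cnt F P R n i + cnt F Pᶜ R n i = 2 ^ R := by
  rw [cnt, cnt, ← sm_add]
  have : (fun t => P.indicator (fun _ => (1 : ℕ)) t + Pᶜ.indicator (fun _ => (1 : ℕ)) t)
      = fun _ => 1 := by
    funext t
    classical
    simp only [Set.indicator_apply, Set.mem_compl_iff]
    split_ifs <;> simp_all
  rw [this, sm_const, one_mul]

lemma cnt_le (P : Set W) (R n : ℕ) (i : ℤ) : cnt F P R n i ≤ 2 ^ R := by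
  rw [← cnt_add_compl P R n i]; exact Nat.le_add_right _ _

lemma cnt_le_sum {P : Set W} (S : Finset W) (h : ∀ t ∈ P, t ∈ S) (R n : ℕ) (i : ℤ) :
    cnt F P R n i ≤ ∑ t ∈ S, cnt F {t} R n i := by
  classical
  simp only [cnt]
  rw [← sm_sum]
  apply sm_mono
  intro t
  by_cases ht : t ∈ P
  · rw [Set.indicator_of_mem ht]
    have h1 : ({t} : Set W).indicator (fun _ => (1 : ℕ)) t = 1 :=
      Set.indicator_of_mem (Set.mem_singleton t) _
    have h2 := Finset.single_le_sum (f := fun x => ({x} : Set W).indicator (fun _ => (1 : ℕ)) t)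
      (fun _ _ => Nat.zero_le _) (h t ht)
    omega
  · rw [Set.indicator_of_notMem ht]
    exact Nat.zero_le _

section Graph

variable {T : SimpleGraph W} {κ : ℕ}

/-- The number of descendants that lie on the other side of a cut is controlled by the number
of descendants near the cut. -/
lemma kraft (hstep : ∀ (n : ℕ) (i : ℤ), T.dist (F n i) (F (n + 1) (2 * i)) ≤ κ ∧
      T.dist (F n i) (F (n + 1) (2 * i + 1)) ≤ κ)
    {C : Set W} {u : W} (hcut : ∀ a ∈ C, ∀ b ∉ C, T.dist a u ≤ T.dist a b) :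
    ∀ (R n : ℕ) (i : ℤ), F n i ∈ C →
      cnt F Cᶜ R n i ≤ ∑ s ∈ range (R + 1), cnt F {t | T.dist t u ≤ κ} s n i * 2 ^ (R - s)
  | 0, n, i, h => by
    rw [cnt_zero, Set.indicator_of_notMem (by simpa using h)]
    exact Nat.zero_le _
  | R + 1, n, i, h => by
    by_cases hnear : T.dist (F n i) u ≤ κ
    · calc cnt F Cᶜ (R + 1) n i ≤ 2 ^ (R + 1) := cnt_le _ _ _ _
        _ = cnt F {t | T.dist t u ≤ κ} 0 n i * 2 ^ (R + 1 - 0) := by
            rw [cnt_zero, Set.indicator_of_mem (by simpa using hnear)]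
            simp
        _ ≤ _ := Finset.single_le_sum
            (f := fun s => cnt F {t | T.dist t u ≤ κ} s n i * 2 ^ (R + 1 - s))
            (fun _ _ => Nat.zero_le _) (by simp)
    · have h1 : F (n + 1) (2 * i) ∈ C := by
        by_contra hb
        exact hnear ((hcut _ h _ hb).trans (hstep n i).1)
      have h2 : F (n + 1) (2 * i + 1) ∈ C := by
        by_contra hb
        exact hnear ((hcut _ h _ hb).trans (hstep n i).2)
      rw [cnt_succ]
      calc _ ≤ (∑ s ∈ range (R + 1), cnt F {t | T.dist t u ≤ κ} s (n + 1) (2 * i) * 2 ^ (R - s))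
            + ∑ s ∈ range (R + 1),
                cnt F {t | T.dist t u ≤ κ} s (n + 1) (2 * i + 1) * 2 ^ (R - s) :=
            Nat.add_le_add (kraft hstep hcut R _ _ h1) (kraft hstep hcut R _ _ h2)
        _ = ∑ s ∈ range (R + 1),
              cnt F {t | T.dist t u ≤ κ} (s + 1) n i * 2 ^ (R + 1 - (s + 1)) := by
            rw [← Finset.sum_add_distrib]
            apply Finset.sum_congr rfl
            intro s _
            rw [cnt_succ, Nat.add_sub_add_right]; ring
        _ ≤ _ := by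
            rw [Finset.sum_range_succ' _ (R + 1)]
            exact Nat.le_add_right _ _

lemma cnt_near_eq_zero (hc : T.Connected)
    (hstep : ∀ (n : ℕ) (i : ℤ), T.dist (F n i) (F (n + 1) (2 * i)) ≤ κ ∧
      T.dist (F n i) (F (n + 1) (2 * i + 1)) ≤ κ) {u : W} :
    ∀ (s n : ℕ) (i : ℤ), κ * s + κ < T.dist (F n i) u → cnt F {t | T.dist t u ≤ κ} s n i = 0
  | 0, n, i, h => by
    rw [cnt_zero, Set.indicator_of_notMem]
    simp only [Set.mem_ofPred_eq]
    omega
  | s + 1, n, i, h => by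
    have e : κ * (s + 1) = κ * s + κ := by ring
    rw [cnt_succ, cnt_near_eq_zero hc hstep s, cnt_near_eq_zero hc hstep s]
    · have h1 : T.dist (F n i) u ≤ T.dist (F n i) (F (n + 1) (2 * i + 1)) +
        T.dist (F (n + 1) (2 * i + 1)) u := hc.dist_triangle
      have h2 := (hstep n i).2
      omega
    · have h1 : T.dist (F n i) u ≤ T.dist (F n i) (F (n + 1) (2 * i)) +
        T.dist (F (n + 1) (2 * i)) u := hc.dist_triangle
      have h2 := (hstep n i).1
      omega

/-- If the cut is far away, at most an eighth of the descendants lie behind it. -/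
lemma far (hc : T.Connected) (h3 : ∀ w, (T.neighborSet w).encard = 3)
    (hstep : ∀ (n : ℕ) (i : ℤ), T.dist (F n i) (F (n + 1) (2 * i)) ≤ κ ∧
      T.dist (F n i) (F (n + 1) (2 * i + 1)) ≤ κ)
    {φ : ℕ → ℝ} (hφ : ∀ (R n : ℕ) (i : ℤ) (t : W), (cnt F {t} R n i : ℝ) ≤ φ R)
    {s0 : ℕ} (hs0 : ∀ R, ∑ s ∈ Ico (s0 + 1) (R + 1), 4 ^ κ * φ s / 2 ^ s ≤ 1 / 8)
    {C : Set W} {u : W} (hcut : ∀ a ∈ C, ∀ b ∉ C, T.dist a u ≤ T.dist a b)
    (R n : ℕ) (i : ℤ) (hC : F n i ∈ C) (hfar : κ * (s0 + 1) < T.dist (F n i) u) :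
    (cnt F Cᶜ R n i : ℝ) ≤ 2 ^ R / 8 := by
  have h1 := kraft hstep hcut R n i hC
  have h2 : ∑ s ∈ Ico (s0 + 1) (R + 1), cnt F {t | T.dist t u ≤ κ} s n i * 2 ^ (R - s) =
      ∑ s ∈ range (R + 1), cnt F {t | T.dist t u ≤ κ} s n i * 2 ^ (R - s) := by
    apply Finset.sum_subset
    · intro s hs
      rw [Finset.mem_Ico] at hs
      rw [Finset.mem_range]; exact hs.2
    · intro s hs hs'
      rw [Finset.mem_range] at hs
      rw [Finset.mem_Ico] at hs'
      have hlt : s ≤ s0 := by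
        by_contra hcon
        exact hs' ⟨by omega, hs⟩
      rw [cnt_near_eq_zero hc hstep s n i, zero_mul]
      have : κ * s ≤ κ * s0 := Nat.mul_le_mul_left _ hlt
      have e : κ * (s0 + 1) = κ * s0 + κ := by ring
      omega
  rw [← h2] at h1
  have hφ0 : ∀ s, 0 ≤ φ s := fun s => le_trans (Nat.cast_nonneg _) (hφ s 0 0 u)
  have h3' : ∀ s, (cnt F {t | T.dist t u ≤ κ} s n i : ℝ) ≤ 4 ^ κ * φ s := by
    intro s
    obtain ⟨S, hS, hmem⟩ := exists_ball hc h3 u κ
    have h4 : cnt F {t | T.dist t u ≤ κ} s n i ≤ ∑ t ∈ S, cnt F {t} s n i := by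
      apply cnt_le_sum
      intro t ht
      apply hmem
      rw [T.dist_comm]; exact ht
    calc (cnt F {t | T.dist t u ≤ κ} s n i : ℝ) ≤ ((∑ t ∈ S, cnt F {t} s n i : ℕ) : ℝ) := by
            exact_mod_cast h4
      _ = ∑ t ∈ S, (cnt F {t} s n i : ℝ) := by push_cast; rfl
      _ ≤ ∑ _t ∈ S, φ s := Finset.sum_le_sum (fun t _ => hφ _ _ _ _)
      _ = S.card * φ s := by rw [Finset.sum_const, nsmul_eq_mul]
      _ ≤ 4 ^ κ * φ s := by
          apply mul_le_mul_of_nonneg_right _ (hφ0 s)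
          exact_mod_cast hS
  calc (cnt F Cᶜ R n i : ℝ)
      ≤ ((∑ s ∈ Ico (s0 + 1) (R + 1), cnt F {t | T.dist t u ≤ κ} s n i * 2 ^ (R - s) : ℕ) : ℝ) := by
        exact_mod_cast h1
    _ = ∑ s ∈ Ico (s0 + 1) (R + 1), (cnt F {t | T.dist t u ≤ κ} s n i : ℝ) * 2 ^ (R - s) := by
        push_cast; rfl
    _ ≤ ∑ s ∈ Ico (s0 + 1) (R + 1), (4 ^ κ * φ s / 2 ^ s) * 2 ^ R := by
        apply Finset.sum_le_sum
        intro s hs
        rw [Finset.mem_Ico] at hs
        have hs' : s ≤ R := by omega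
        have e : (2 : ℝ) ^ (R - s) = 2 ^ R / 2 ^ s := by
          rw [eq_div_iff (by positivity), ← pow_add, Nat.sub_add_cancel hs']
        rw [e]
        have := h3' s
        have h2R : (0 : ℝ) < 2 ^ R / 2 ^ s := by positivity
        calc (cnt F {t | T.dist t u ≤ κ} s n i : ℝ) * (2 ^ R / 2 ^ s)
            ≤ (4 ^ κ * φ s) * (2 ^ R / 2 ^ s) := mul_le_mul_of_nonneg_right this h2R.le
          _ = _ := by ring
    _ = (∑ s ∈ Ico (s0 + 1) (R + 1), 4 ^ κ * φ s / 2 ^ s) * 2 ^ R := by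
        rw [Finset.sum_mul]
    _ ≤ 1 / 8 * 2 ^ R := mul_le_mul_of_nonneg_right (hs0 R) (by positivity)
    _ = 2 ^ R / 8 := by ring

/-- The centroid edge of the distribution of the descendants. -/
lemma centroid (hc : T.Connected) (h3 : ∀ w, (T.neighborSet w).encard = 3) [Nonempty W]
    (R n : ℕ) (i : ℤ) : ∃ u u', T.Adj u u' ∧ 2 * cnt F (half T u u') R n i ≤ 2 ^ R ∧
      2 ^ R ≤ 3 * cnt F (half T u u') R n i + cnt F {u} R n i := by
  classical
  -- minimizer of the sum of the distances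
  obtain ⟨u, hu⟩ : ∃ u, ∀ u', sm F (fun t => T.dist t u) R n i ≤ sm F (fun t => T.dist t u') R n i := by
    have := (measure fun u => sm F (fun t => T.dist t u) R n i).wf.has_min Set.univ Set.univ_nonempty
    obtain ⟨u, -, hu⟩ := this
    exact ⟨u, fun u' => not_lt.1 (hu u' (Set.mem_univ _))⟩
  have hmin : ∀ u', T.Adj u u' → 2 * cnt F (half T u u') R n i ≤ 2 ^ R := by
    intro u' hadj
    have h1 : sm F (fun t => T.dist t u' + 2 * (half T u u').indicator (fun _ => 1) t) R n i ≤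
        sm F (fun t => T.dist t u + 1) R n i := by
      apply sm_mono
      intro t
      by_cases ht : t ∈ half T u u'
      · rw [Set.indicator_of_mem ht]
        rw [mem_half] at ht
        omega
      · rw [Set.indicator_of_notMem ht]
        have h4 : T.dist t u' ≤ T.dist t u + T.dist u u' := hc.dist_triangle
        have h5 : T.dist u u' = 1 := dist_eq_one_iff_adj.2 hadj
        omega
    rw [sm_add, sm_add, sm_const, sm_mul] at h1
    have := hu u'
    rw [cnt]
    omega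
  have hfin : (T.neighborSet u).Finite := by
    apply Set.finite_of_encard_eq_coe (k := 3)
    rw [h3 u]; rfl
  have hcard : hfin.toFinset.card = 3 := by
    have : (hfin.toFinset.card : ℕ∞) = 3 := by
      rw [← Set.Finite.encard_eq_coe_toFinset_card, h3 u]
    exact_mod_cast this
  have hcover : 2 ^ R ≤ (∑ u' ∈ hfin.toFinset, cnt F (half T u u') R n i) + cnt F {u} R n i := by
    simp only [cnt]
    rw [← sm_sum, ← sm_add]
    have := sm_const (F := F) 1 R n i
    rw [one_mul] at this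
    rw [← this]
    apply sm_mono
    intro t
    by_cases ht : t = u
    · have : ({u} : Set W).indicator (fun _ => (1 : ℕ)) t = 1 := by
        rw [Set.indicator_of_mem (by simpa using ht)]
      omega
    · obtain ⟨u', hadj, hu'⟩ := exists_half hc ht
      have hmem : u' ∈ hfin.toFinset := by simpa using hadj
      have h6 := Finset.single_le_sum
        (f := fun x => (half T u x).indicator (fun _ => (1 : ℕ)) t)
        (fun _ _ => Nat.zero_le _) hmem
      simp only [Set.indicator_of_mem hu'] at h6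
      omega
  -- some neighbour gets a third
  by_contra hcon
  push Not at hcon
  have hlt : ∀ u' ∈ hfin.toFinset, 3 * cnt F (half T u u') R n i + cnt F {u} R n i < 2 ^ R := by
    intro u' hu'
    have hadj : T.Adj u u' := by simpa using hu'
    exact hcon u u' hadj (hmin u' hadj)
  have hne : hfin.toFinset.Nonempty := by
    rw [← Finset.card_pos, hcard]; norm_num
  have hsum := Finset.sum_lt_sum_of_nonempty hne hlt
  rw [Finset.sum_add_distrib, Finset.sum_const, Finset.sum_const, hcard, ← Finset.mul_sum,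
    smul_eq_mul, smul_eq_mul] at hsum
  omega

/-- The relation `X`: the value `θ` is crossed between the boxes `(n, i)` and `(n, i + 1)`. -/
def Cross (F : ℕ → ℤ → W) (C : Set W) (θ : ℝ) (R n : ℕ) (i : ℤ) : Prop :=
  (θ * 2 ^ R ≤ cnt F C R n i ∧ (cnt F C R n (i + 1) : ℝ) ≤ θ * 2 ^ R) ∨
  ((cnt F C R n i : ℝ) ≤ θ * 2 ^ R ∧ θ * 2 ^ R ≤ cnt F C R n (i + 1))

lemma cross_succ {C : Set W} {θ : ℝ} {R n : ℕ} {i : ℤ} (h : Cross F C θ (R + 1) n i) :
    Cross F C θ R (n + 1) (2 * i) ∨ Cross F C θ R (n + 1) (2 * i + 1) ∨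
      Cross F C θ R (n + 1) (2 * i + 2) := by
  unfold Cross at h ⊢
  have e1 : (2 * (i + 1) : ℤ) = 2 * i + 2 := by ring
  have e2 : (2 * i + 1 + 1 : ℤ) = 2 * i + 2 := by ring
  rw [cnt_succ, cnt_succ, e1] at h
  rw [e2]
  push_cast at h
  rw [pow_succ] at h
  set a : ℝ := (cnt F C R (n + 1) (2 * i) : ℝ)
  set b : ℝ := (cnt F C R (n + 1) (2 * i + 1) : ℝ)
  set c : ℝ := (cnt F C R (n + 1) (2 * i + 2) : ℝ)
  set d : ℝ := (cnt F C R (n + 1) (2 * i + 2 + 1) : ℝ)
  set x : ℝ := θ * 2 ^ R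
  have hx : θ * (2 ^ R * 2) = 2 * x := by simp only [x]; ring
  rw [hx] at h
  rcases le_total x b with hb | hb <;> rcases le_total x c with hc | hc
  · rcases h with ⟨h1, h2⟩ | ⟨h1, h2⟩
    · exact Or.inr (Or.inr (Or.inl ⟨hc, by linarith⟩))
    · exact Or.inl (Or.inr ⟨by linarith, hb⟩)
  · exact Or.inr (Or.inl (Or.inl ⟨hb, hc⟩))
  · exact Or.inr (Or.inl (Or.inr ⟨hb, hc⟩))
  · rcases h with ⟨h1, h2⟩ | ⟨h1, h2⟩
    · exact Or.inl (Or.inl ⟨by linarith, hb⟩)
    · exact Or.inr (Or.inr (Or.inr ⟨hc, by linarith⟩))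

end Graph

end Pool.Agent.Lib.MP_7da865_gt
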