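import Mathlib

/-!
# Definitions used in the statement about regular maps

All graphs carry their path metric `SimpleGraph.dist`.
-/

namespace Pool.Agent.Lib.MP_7da865_gt

open SimpleGraph UpperHalfPlane

/-- The graph `G` has bounded degree. -/
def BoundedDegree {V : Type*} (G : SimpleGraph V) : Prop :=
  ∃ D : ℕ, ∀ v : V, (G.neighborSet v).encard ≤ D

/-- The graph `G` has subexponential growth: for every `ε > 0` there is a constant `C` such that
every closed ball of radius `r ≥ 0` in the path metric is finite and has at most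
`C * exp (ε * r)` elements. -/
def SubexponentialGrowth {V : Type*} (G : SimpleGraph V) : Prop :=
  ∀ ε : ℝ, 0 < ε → ∃ C : ℝ, ∀ (y : V) (r : ℝ), 0 ≤ r →
    {y' : V | (G.dist y y' : ℝ) ≤ r}.Finite ∧
      ({y' : V | (G.dist y y' : ℝ) ≤ r}.ncard : ℝ) ≤ C * Real.exp (ε * r)

/-- `f` is a regular map between the vertex sets of `G` and `H` with their path metrics. -/
def IsRegularMap {V W : Type*} (G : SimpleGraph V) (H : SimpleGraph W) (f : V → W) : Prop :=
  ∃ κ : ℝ, 1 ≤ κ ∧ (∀ x x' : V, (H.dist (f x) (f x') : ℝ) ≤ κ * G.dist x x' + κ) ∧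
    ∀ z : W, (f ⁻¹' {z}).Finite ∧ ((f ⁻¹' {z}).ncard : ℝ) ≤ κ

/-- The vertex set of `G` with its path metric is quasi-isometric to the hyperbolic plane (the
upper half plane `ℍ` with its hyperbolic metric). -/
def QuasiIsometricToHyperbolicPlane {V : Type*} (G : SimpleGraph V) : Prop :=
  ∃ (ψ : V → ℍ) (A B : ℝ), 1 ≤ A ∧ 0 ≤ B ∧
    (∀ x x' : V, A⁻¹ * G.dist x x' - B ≤ dist (ψ x) (ψ x') ∧
      dist (ψ x) (ψ x') ≤ A * G.dist x x' + B) ∧
    ∀ z : ℍ, ∃ x : V, dist z (ψ x) ≤ B

end Pool.Agent.Lib.MP_7da865_gt
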