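import Mathlib
import Pool.Agent.Lib.MP_7da865_gt.Core

/-!
The main combinatorial theorem: there is no map from the dyadic boxes to a 3-regular tree that is
Lipschitz and whose fibres have subexponential growth.
-/

namespace Pool.Agent.Lib.MP_7da865_gt

open SimpleGraph Finset

variable {W : Type*} {F : ℕ → ℤ → W} {T : SimpleGraph W} {κ : ℕ}

/-- A descendant stays near the box for a short time. -/
lemma one_le_cnt_near (hc : T.Connected)
    (hstep : ∀ (n : ℕ) (i : ℤ), T.dist (F n i) (F (n + 1) (2 * i)) ≤ κ ∧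
      T.dist (F n i) (F (n + 1) (2 * i + 1)) ≤ κ) {w : W} {D : ℕ} :
    ∀ (R n : ℕ) (i : ℤ), T.dist w (F n i) + κ * R ≤ D → 1 ≤ cnt F {t | T.dist w t ≤ D} R n i
  | 0, n, i, h => by
    rw [cnt_zero, Set.indicator_of_mem]
    simp only [Set.mem_ofPred_eq]
    omega
  | R + 1, n, i, h => by
    rw [cnt_succ]
    have e : κ * (R + 1) = κ * R + κ := by ring
    have h1 : T.dist w (F (n + 1) (2 * i)) ≤ T.dist w (F n i) + T.dist (F n i) (F (n + 1) (2 * i)) :=
      hc.dist_triangle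
    have h2 := (hstep n i).1
    have := one_le_cnt_near hc hstep (w := w) (D := D) R (n + 1) (2 * i) (by omega)
    omega

section

variable (hT : T.IsTree) (h3 : ∀ w, (T.neighborSet w).encard = 3)
    (hstep : ∀ (n : ℕ) (i : ℤ), T.dist (F n i) (F (n + 1) (2 * i)) ≤ κ ∧
      T.dist (F n i) (F (n + 1) (2 * i + 1)) ≤ κ)
    (hrow : ∀ (n : ℕ) (i : ℤ), T.dist (F n i) (F n (i + 1)) ≤ κ)
    {φ : ℕ → ℝ} (hφ : ∀ (R n : ℕ) (i : ℤ) (t : W), (cnt F {t} R n i : ℝ) ≤ φ R)
    {s0 : ℕ} (hs0 : ∀ R, ∑ s ∈ Ico (s0 + 1) (R + 1), 4 ^ κ * φ s / 2 ^ s ≤ 1 / 8)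

include hT h3 hstep hφ hs0

lemma far_in {u u' : W} (hu : T.Adj u u') (R n : ℕ) (i : ℤ) (hC : F n i ∈ half T u u')
    (hfar : κ * (s0 + 1) < T.dist (F n i) u) :
    7 * 2 ^ R / 8 ≤ (cnt F (half T u u') R n i : ℝ) := by
  have h1 := far hT.connected h3 hstep hφ hs0 (C := half T u u') (u := u)
    (fun a ha b hb => (cut hT hu ha hb).1) R n i hC hfar
  have h2 := cnt_add_compl (F := F) (half T u u') R n i
  have h2' : (cnt F (half T u u') R n i : ℝ) + cnt F (half T u u')ᶜ R n i = 2 ^ R := by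
    exact_mod_cast h2
  linarith

lemma far_out {u u' : W} (hu : T.Adj u u') (R n : ℕ) (i : ℤ) (hC : F n i ∉ half T u u')
    (hfar : κ * (s0 + 1) < T.dist (F n i) u) :
    (cnt F (half T u u') R n i : ℝ) ≤ 2 ^ R / 8 := by
  have h1 := far hT.connected h3 hstep hφ hs0 (C := (half T u u')ᶜ) (u := u)
    (fun a ha b hb => by
      have hb' : b ∈ half T u u' := by simpa using hb
      have := (cut hT hu hb' ha).2
      rwa [T.dist_comm (u := b) (v := a)] at this) R n i hC hfar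
  rwa [compl_compl] at h1

lemma near_single {u u' : W} (hu : T.Adj u u') (R n : ℕ) (i : ℤ)
    (h1 : 2 ^ R / 8 < (cnt F (half T u u') R n i : ℝ))
    (h2 : (cnt F (half T u u') R n i : ℝ) < 7 * 2 ^ R / 8) :
    T.dist (F n i) u ≤ κ * (s0 + 1) := by
  by_contra hcon
  push Not at hcon
  by_cases hC : F n i ∈ half T u u'
  · have := far_in hT h3 hstep hφ hs0 hu R n i hC hcon
    linarith
  · have := far_out hT h3 hstep hφ hs0 hu R n i hC hcon
    linarith

include hrow in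
lemma near_pair {u u' : W} (hu : T.Adj u u') {θ : ℝ} (hθ1 : 1 / 8 < θ) (hθ2 : θ < 7 / 8)
    (R n : ℕ) (i : ℤ) (hX : Cross F (half T u u') θ R n i) :
    T.dist (F n i) u ≤ κ * (s0 + 1) + κ ∧ T.dist (F n (i + 1)) u ≤ κ * (s0 + 1) + κ := by
  have hc := hT.connected
  by_contra hcon
  have hr := hrow n i
  have t1 : T.dist (F n i) u ≤ T.dist (F n i) (F n (i + 1)) + T.dist (F n (i + 1)) u :=
    hc.dist_triangle
  have t2 : T.dist (F n (i + 1)) u ≤ T.dist (F n (i + 1)) (F n i) + T.dist (F n i) u :=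
    hc.dist_triangle
  rw [T.dist_comm (u := F n (i + 1)) (v := F n i)] at t2
  have hf1 : κ * (s0 + 1) < T.dist (F n i) u := by
    by_contra h
    exact hcon ⟨by omega, by omega⟩
  have hf2 : κ * (s0 + 1) < T.dist (F n (i + 1)) u := by
    by_contra h
    exact hcon ⟨by omega, by omega⟩
  have hκ : κ ≤ κ * (s0 + 1) := Nat.le_mul_of_pos_right _ (by omega)
  have hpos : (0 : ℝ) < 2 ^ R := by positivity
  by_cases hC1 : F n i ∈ half T u u' <;> by_cases hC2 : F n (i + 1) ∈ half T u u'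
  · have a1 := far_in hT h3 hstep hφ hs0 hu R n i hC1 hf1
    have a2 := far_in hT h3 hstep hφ hs0 hu R n (i + 1) hC2 hf2
    have h7 : θ * 2 ^ R < 7 / 8 * 2 ^ R := mul_lt_mul_of_pos_right hθ2 hpos
    rcases hX with ⟨_, h⟩ | ⟨h, _⟩ <;> linarith
  · have := (cut hT hu hC1 hC2).1
    omega
  · have := (cut hT hu hC2 hC1).1
    rw [T.dist_comm (u := F n (i + 1)) (v := F n i)] at this
    omega
  · have a1 := far_out hT h3 hstep hφ hs0 hu R n i hC1 hf1
    have a2 := far_out hT h3 hstep hφ hs0 hu R n (i + 1) hC2 hf2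
    have h7 : 1 / 8 * 2 ^ R < θ * 2 ^ R := mul_lt_mul_of_pos_right hθ1 hpos
    rcases hX with ⟨h, _⟩ | ⟨_, h⟩ <;> linarith

include hrow in
/-- Below a crossing pair, there is a descendant near the cut at every depth. -/
lemma leaf_near {u u' : W} (hu : T.Adj u u') {θ : ℝ} (hθ1 : 1 / 8 < θ) (hθ2 : θ < 7 / 8)
    {P : Set W} (hP : ∀ t, T.dist t u ≤ κ * (s0 + 1) + κ → t ∈ P) :
    ∀ (R n : ℕ) (i : ℤ), Cross F (half T u u') θ R n i → 1 ≤ cnt F P R n i + cnt F P R n (i + 1)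
  | 0, n, i, hX => by
    have := (near_pair hT h3 hstep hrow hφ hs0 hu hθ1 hθ2 0 n i hX).1
    rw [cnt_zero, Set.indicator_of_mem (hP _ this)]
    omega
  | R + 1, n, i, hX => by
    have e1 : (2 * (i + 1) : ℤ) = 2 * i + 2 := by ring
    rw [cnt_succ, cnt_succ, e1]
    rcases cross_succ hX with h | h | h
    · have := leaf_near hu hθ1 hθ2 hP R _ _ h
      omega
    · have := leaf_near hu hθ1 hθ2 hP R _ _ h
      have e2 : (2 * i + 1 + 1 : ℤ) = 2 * i + 2 := by ring
      rw [e2] at this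
      omega
    · have := leaf_near hu hθ1 hθ2 hP R _ _ h
      omega

include hrow in
/-- Below a crossing pair, the side boxes contribute at each depth. -/
lemma side {u u' : W} (hu : T.Adj u u') {θ : ℝ} (hθ1 : 1 / 8 < θ) (hθ2 : θ < 7 / 8)
    {P : Set W} {N r0 : ℕ}
    (hP : ∀ (R n : ℕ) (i : ℤ), r0 ≤ R → T.dist (F n i) u ≤ κ * (s0 + 1) + 2 * κ →
      N ≤ cnt F P R n i) :
    ∀ (m R n : ℕ) (i : ℤ), Cross F (half T u u') θ R n i → m + r0 ≤ R →
      m * N ≤ cnt F P R n i + cnt F P R n (i + 1)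
  | 0, R, n, i, hX, _ => by simp
  | m + 1, 0, n, i, hX, h => by omega
  | m + 1, R + 1, n, i, hX, h => by
    have hc := hT.connected
    have hnear := near_pair hT h3 hstep hrow hφ hs0 hu hθ1 hθ2 (R + 1) n i hX
    have e1 : (2 * (i + 1) : ℤ) = 2 * i + 2 := by ring
    have hg1 : N ≤ cnt F P R (n + 1) (2 * i) := by
      apply hP R _ _ (by omega)
      have := (hstep n i).1
      have t1 : T.dist (F (n + 1) (2 * i)) u ≤
        T.dist (F (n + 1) (2 * i)) (F n i) + T.dist (F n i) u := hc.dist_triangle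
      rw [T.dist_comm (u := F (n + 1) (2 * i)) (v := F n i)] at t1
      omega
    have hg2 : N ≤ cnt F P R (n + 1) (2 * i + 2 + 1) := by
      apply hP R _ _ (by omega)
      have := (hstep n (i + 1)).2
      rw [e1] at this
      have t1 : T.dist (F (n + 1) (2 * i + 2 + 1)) u ≤
        T.dist (F (n + 1) (2 * i + 2 + 1)) (F n (i + 1)) + T.dist (F n (i + 1)) u :=
        hc.dist_triangle
      rw [T.dist_comm (u := F (n + 1) (2 * i + 2 + 1)) (v := F n (i + 1))] at t1
      omega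
    rw [cnt_succ, cnt_succ, e1, Nat.add_mul, one_mul]
    rcases cross_succ hX with h' | h' | h'
    · have := side hu hθ1 hθ2 hP m R _ _ h' (by omega)
      omega
    · have := side hu hθ1 hθ2 hP m R _ _ h' (by omega)
      have e2 : (2 * i + 1 + 1 : ℤ) = 2 * i + 2 := by ring
      rw [e2] at this
      omega
    · have := side hu hθ1 hθ2 hP m R _ _ h' (by omega)
      omega

include hrow in
/-- Exponentially many descendants near the image of the box. -/
lemma many (hR0 : ∀ R, s0 + 1 ≤ R → φ R ≤ 2 ^ R / 4) (A : ℕ) (k : ℕ) :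
    ∀ (R n : ℕ) (i : ℤ), (A + s0 + 2) * k ≤ R →
      A ^ k ≤ cnt F {t | T.dist (F n i) t ≤ (k + 1) * (2 * (κ * (s0 + 1)) + 2 * κ)} R n i := by
  have : Nonempty W := ⟨F 0 0⟩
  have hc := hT.connected
  -- the centroid edge
  have hcen : ∀ (R n : ℕ) (i : ℤ), s0 + 1 ≤ R + 1 → ∃ u u' : W, ∃ θ : ℝ, T.Adj u u' ∧ 1 / 8 < θ ∧
      θ < 7 / 8 ∧ T.dist (F n i) u ≤ κ * (s0 + 1) ∧
      Cross F (half T u u') θ R (n + 1) (2 * i) := by
    intro R n i hR
    obtain ⟨u, u', hadj, hle, hge⟩ := centroid (F := F) hc h3 (R + 1) n i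
    have hφ' := hφ (R + 1) n i u
    have hq := hR0 (R + 1) hR
    have hle' : 2 * (cnt F (half T u u') (R + 1) n i : ℝ) ≤ 2 ^ (R + 1) := by exact_mod_cast hle
    have hge' : (2 : ℝ) ^ (R + 1) ≤
        3 * cnt F (half T u u') (R + 1) n i + cnt F {u} (R + 1) n i := by
      exact_mod_cast hge
    have hpos : (0 : ℝ) < 2 ^ (R + 1) := by positivity
    refine ⟨u, u', (cnt F (half T u u') (R + 1) n i : ℝ) / 2 ^ (R + 1), hadj, ?_, ?_, ?_, ?_⟩
    · rw [lt_div_iff₀ hpos]; linarith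
    · rw [div_lt_iff₀ hpos]; linarith
    · apply near_single hT h3 hstep hφ hs0 hadj (R + 1) n i <;> linarith
    · have hsum : (cnt F (half T u u') (R + 1) n i : ℝ) =
          cnt F (half T u u') R (n + 1) (2 * i) + cnt F (half T u u') R (n + 1) (2 * i + 1) := by
        rw [cnt_succ]; push_cast; rfl
      have hθ : (cnt F (half T u u') (R + 1) n i : ℝ) / 2 ^ (R + 1) * 2 ^ R =
          (cnt F (half T u u') R (n + 1) (2 * i) + cnt F (half T u u') R (n + 1) (2 * i + 1)) / 2 := by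
        rw [hsum, pow_succ]
        field_simp
      unfold Cross
      rw [hθ]
      rcases le_total (cnt F (half T u u') R (n + 1) (2 * i) : ℝ)
        (cnt F (half T u u') R (n + 1) (2 * i + 1)) with h | h
      · exact Or.inr ⟨by linarith, by linarith⟩
      · exact Or.inl ⟨by linarith, by linarith⟩
  induction k with
  | zero =>
    intro R n i _
    rw [pow_zero]
    simp only [zero_add, one_mul]
    by_cases hR : R ≤ s0
    · apply one_le_cnt_near hc hstep R n i
      rw [dist_self, zero_add]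
      have : κ * R ≤ κ * (s0 + 1) := Nat.mul_le_mul_left _ (by omega)
      omega
    · obtain ⟨R', rfl⟩ : ∃ R', R = R' + 1 := ⟨R - 1, by omega⟩
      obtain ⟨u, u', θ, hadj, hθ1, hθ2, hdu, hX⟩ := hcen R' n i (by omega)
      rw [cnt_succ]
      apply leaf_near hT h3 hstep hrow hφ hs0 hadj hθ1 hθ2 _ R' _ _ hX
      intro t ht
      simp only [Set.mem_ofPred_eq]
      have t1 : T.dist (F n i) t ≤ T.dist (F n i) u + T.dist u t := hc.dist_triangle
      rw [T.dist_comm (u := u) (v := t)] at t1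
      omega
  | succ k ih =>
    intro R n i hR
    have eR : (A + s0 + 2) * (k + 1) = (A + s0 + 2) * k + (A + s0 + 2) := by ring
    obtain ⟨R', rfl⟩ : ∃ R', R = R' + 1 := ⟨R - 1, by omega⟩
    obtain ⟨u, u', θ, hadj, hθ1, hθ2, hdu, hX⟩ := hcen R' n i (by omega)
    rw [cnt_succ, pow_succ, mul_comm]
    apply side hT h3 hstep hrow hφ hs0 hadj hθ1 hθ2 (r0 := (A + s0 + 2) * k) _ A R' _ _ hX
      (by omega)
    intro R n' i' hR' hd
    refine (ih R n' i' hR').trans (cnt_mono ?_ _ _ _)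
    intro t ht
    simp only [Set.mem_ofPred_eq] at ht ⊢
    have t1 : T.dist (F n i) t ≤ T.dist (F n i) (F n' i') + T.dist (F n' i') t := hc.dist_triangle
    have t2 : T.dist (F n i) (F n' i') ≤ T.dist (F n i) u + T.dist u (F n' i') := hc.dist_triangle
    rw [T.dist_comm (u := u) (v := F n' i')] at t2
    have e : (k + 1 + 1) * (2 * (κ * (s0 + 1)) + 2 * κ) =
      (k + 1) * (2 * (κ * (s0 + 1)) + 2 * κ) + (2 * (κ * (s0 + 1)) + 2 * κ) := by ring
    omega

end

/-- The combinatorial core: no Lipschitz map from the dyadic boxes to a 3-regular tree has fibres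
of subexponential growth. -/
theorem core (hT : T.IsTree) (h3 : ∀ w, (T.neighborSet w).encard = 3)
    (hstep : ∀ (n : ℕ) (i : ℤ), T.dist (F n i) (F (n + 1) (2 * i)) ≤ κ ∧
      T.dist (F n i) (F (n + 1) (2 * i + 1)) ≤ κ)
    (hrow : ∀ (n : ℕ) (i : ℤ), T.dist (F n i) (F n (i + 1)) ≤ κ)
    {φ : ℕ → ℝ} (hφ : ∀ (R n : ℕ) (i : ℤ) (t : W), (cnt F {t} R n i : ℝ) ≤ φ R)
    (hsub : ∀ ε : ℝ, 0 < ε → ∃ C : ℝ, ∀ R : ℕ, φ R ≤ C * Real.exp (ε * R)) : False := by
  have hc := hT.connected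
  have hφ0 : ∀ s, 0 ≤ φ s := fun s => le_trans (Nat.cast_nonneg _) (hφ s 0 0 (F 0 0))
  -- choice of s0
  obtain ⟨s0, hs0, hR0⟩ : ∃ s0 : ℕ,
      (∀ R, ∑ s ∈ Ico (s0 + 1) (R + 1), 4 ^ κ * φ s / 2 ^ s ≤ 1 / 8) ∧
      ∀ R, s0 + 1 ≤ R → φ R ≤ 2 ^ R / 4 := by
    obtain ⟨C, hC⟩ := hsub (1 / 2) (by norm_num)
    have hsummable : Summable (fun s : ℕ => 4 ^ κ * φ s / 2 ^ s) := by
      have hlt : Real.exp (1 / 2) / 2 < 1 := by
        rw [div_lt_one (by norm_num)]
        have h1 : Real.exp (1 / 2) ^ 2 = Real.exp 1 := by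
          rw [← Real.exp_nat_mul]; norm_num
        have h2 : Real.exp 1 < 4 := lt_trans Real.exp_one_lt_d9 (by norm_num)
        nlinarith [Real.exp_pos (1 / 2 : ℝ)]
      have hg : Summable (fun s : ℕ => (4 ^ κ * C) * (Real.exp (1 / 2) / 2) ^ s) :=
        (summable_geometric_of_lt_one (by positivity) hlt).mul_left _
      refine Summable.of_nonneg_of_le (fun s => ?_) (fun s => ?_) hg
      · have := hφ0 s
        positivity
      · rw [div_pow, ← Real.exp_nat_mul, mul_assoc, mul_div_assoc]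
        have h1 := hC s
        have h2 : φ s / 2 ^ s ≤ C * Real.exp (1 / 2 * s) / 2 ^ s := by gcongr
        have e : C * (Real.exp (s * (1 / 2)) / 2 ^ s) = C * Real.exp (1 / 2 * s) / 2 ^ s := by
          rw [mul_comm (s : ℝ) (1 / 2)]; ring
        rw [e]
        exact mul_le_mul_of_nonneg_left h2 (by positivity)
    rw [summable_iff_vanishing_norm] at hsummable
    obtain ⟨S, hS⟩ := hsummable (1 / 8) (by norm_num)
    refine ⟨S.sup id, fun R => ?_, fun R hR => ?_⟩
    · have hdisj : Disjoint (Ico (S.sup id + 1) (R + 1)) S := by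
        rw [Finset.disjoint_left]
        intro a ha haS
        rw [Finset.mem_Ico] at ha
        have : a ≤ S.sup id := Finset.le_sup (f := id) haS
        omega
      have := hS _ hdisj
      exact (le_abs_self _).trans this.le
    · have hdisj : Disjoint {R} S := by
        rw [Finset.disjoint_left]
        intro a ha haS
        rw [Finset.mem_singleton] at ha
        have : a ≤ S.sup id := Finset.le_sup (f := id) haS
        omega
      have h1 := hS _ hdisj
      rw [Finset.sum_singleton, Real.norm_eq_abs] at h1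
      have h2 := (le_abs_self _).trans h1.le
      rw [div_le_iff₀ (by positivity)] at h2
      have h3 : (1 : ℝ) ≤ 4 ^ κ := one_le_pow₀ (by norm_num)
      have h4 := hφ0 R
      have h5 : (0 : ℝ) < 2 ^ R := by positivity
      nlinarith
  set D := 2 * (κ * (s0 + 1)) + 2 * κ with hD
  set A := 2 * 4 ^ D with hA
  set q := A + s0 + 2 with hq
  -- exponential lower bound for the fibres
  have hlow : ∀ k : ℕ, (2 : ℝ) ^ k ≤ 4 ^ D * φ (q * k) := by
    intro k
    have h1 := many hT h3 hstep hrow hφ hs0 hR0 A k (q * k) 0 0 le_rfl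
    rw [← hD] at h1
    obtain ⟨S, hS, hmem⟩ := exists_ball hc h3 (F 0 0) ((k + 1) * D)
    have h2 := cnt_le_sum (F := F) (P := {t | T.dist (F 0 0) t ≤ (k + 1) * D}) S
      (fun t ht => hmem t ht) (q * k) 0 0
    have h3' : (A : ℝ) ^ k ≤ 4 ^ ((k + 1) * D) * φ (q * k) := by
      calc (A : ℝ) ^ k ≤ ((∑ t ∈ S, cnt F {t} (q * k) 0 0 : ℕ) : ℝ) := by
              exact_mod_cast h1.trans h2
        _ = ∑ t ∈ S, (cnt F {t} (q * k) 0 0 : ℝ) := by push_cast; rfl
        _ ≤ ∑ _t ∈ S, φ (q * k) := Finset.sum_le_sum (fun t _ => hφ _ _ _ _)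
        _ = S.card * φ (q * k) := by rw [Finset.sum_const, nsmul_eq_mul]
        _ ≤ 4 ^ ((k + 1) * D) * φ (q * k) := by
            apply mul_le_mul_of_nonneg_right _ (hφ0 _)
            exact_mod_cast hS
    have e1 : (A : ℝ) ^ k = 2 ^ k * 4 ^ (k * D) := by
      rw [hA]; push_cast; rw [mul_pow, ← pow_mul, mul_comm D k]
    have e2 : (4 : ℝ) ^ ((k + 1) * D) = 4 ^ (k * D) * 4 ^ D := by
      rw [← pow_add]; congr 1; ring
    rw [e1, e2] at h3'
    have hpos : (0 : ℝ) < 4 ^ (k * D) := by positivity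
    have h4 : 4 ^ (k * D) * 2 ^ k ≤ 4 ^ (k * D) * (4 ^ D * φ (q * k)) := by
      calc (4 : ℝ) ^ (k * D) * 2 ^ k = 2 ^ k * 4 ^ (k * D) := by ring
        _ ≤ _ := h3'
        _ = _ := by ring
    exact le_of_mul_le_mul_left h4 hpos
  -- contradiction
  have hqpos : (0 : ℝ) < q := by
    have : 0 < q := by omega
    exact_mod_cast this
  obtain ⟨C, hC⟩ := hsub (Real.log 2 / (2 * q)) (by positivity)
  have hbd : ∀ k : ℕ, (2 : ℝ) ^ k ≤ 4 ^ D * C * Real.sqrt 2 ^ k := by
    intro k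
    have h1 := hC (q * k)
    have e : Real.exp (Real.log 2 / (2 * q) * ((q * k : ℕ) : ℝ)) = Real.sqrt 2 ^ k := by
      push_cast
      have e1 : Real.log 2 / (2 * q) * (q * k) = k * (Real.log 2 / 2) := by
        field_simp
      rw [e1, Real.exp_nat_mul]
      congr 1
      rw [Real.sqrt_eq_rpow, Real.rpow_def_of_pos (by norm_num)]
      congr 1; ring
    rw [e] at h1
    calc (2 : ℝ) ^ k ≤ 4 ^ D * φ (q * k) := hlow k
      _ ≤ 4 ^ D * (C * Real.sqrt 2 ^ k) := mul_le_mul_of_nonneg_left h1 (by positivity)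
      _ = _ := by ring
  have hs2 : Real.sqrt 2 * Real.sqrt 2 = 2 := Real.mul_self_sqrt (by norm_num)
  have hs1 : 1 < Real.sqrt 2 := by
    rw [Real.lt_sqrt (by norm_num)]; norm_num
  obtain ⟨k, hk⟩ := pow_unbounded_of_one_lt (4 ^ D * C) hs1
  have h1 := hbd k
  have h2 : (2 : ℝ) ^ k = Real.sqrt 2 ^ k * Real.sqrt 2 ^ k := by
    rw [← mul_pow, hs2]
  rw [h2] at h1
  have h3 : (0 : ℝ) < Real.sqrt 2 ^ k := by positivity
  have h4 := le_of_mul_le_mul_right h1 h3
  linarith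

end Pool.Agent.Lib.MP_7da865_gt
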