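import Mathlib
import Pool.Agent.Lib.MP_7da865_gt.Defs
import Pool.Agent.Lib.MP_7da865_gt.Main

/-!
# From the hyperbolic plane to the combinatorial core
-/

namespace Pool.Agent.Lib.MP_7da865_gt

open SimpleGraph UpperHalfPlane

/-! ### Counting descendants -/

lemma cnt_eq_card {W : Type*} (F : ℕ → ℤ → W) (P : Set W) [DecidablePred (· ∈ P)] :
    ∀ (R n : ℕ) (i : ℤ), cnt F P R n i =
      ((Finset.Ico (2 ^ R * i) (2 ^ R * i + 2 ^ R)).filter fun j => F (n + R) j ∈ P).card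
  | 0, n, i => by
    rw [cnt_zero]
    have : Finset.Ico (2 ^ 0 * i) (2 ^ 0 * i + 2 ^ 0) = {i} := by
      ext j; simp only [pow_zero, one_mul, Finset.mem_Ico, Finset.mem_singleton]; omega
    rw [this, Finset.filter_singleton]
    by_cases h : F n i ∈ P
    · rw [Set.indicator_of_mem h]; simp [h]
    · rw [Set.indicator_of_notMem h]; simp [h]
  | R + 1, n, i => by
    rw [cnt_succ, cnt_eq_card F P R, cnt_eq_card F P R]
    have e1 : Finset.Ico (2 ^ (R + 1) * i) (2 ^ (R + 1) * i + 2 ^ (R + 1)) =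
        Finset.Ico (2 ^ R * (2 * i)) (2 ^ R * (2 * i) + 2 ^ R) ∪
        Finset.Ico (2 ^ R * (2 * i + 1)) (2 ^ R * (2 * i + 1) + 2 ^ R) := by
      ext j
      rw [Finset.mem_union, Finset.mem_Ico, Finset.mem_Ico, Finset.mem_Ico]
      have h1 : (2 : ℤ) ^ (R + 1) * i = 2 ^ R * (2 * i) := by ring
      have h2 : (2 : ℤ) ^ R * (2 * i + 1) = 2 ^ R * (2 * i) + 2 ^ R := by ring
      have h3 : (2 : ℤ) ^ (R + 1) = 2 ^ R + 2 ^ R := by ring
      have h4 : (0 : ℤ) < 2 ^ R := by positivity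
      rw [h1, h2, h3]
      omega
    have hd : Disjoint (Finset.Ico (2 ^ R * (2 * i)) (2 ^ R * (2 * i) + 2 ^ R))
        (Finset.Ico (2 ^ R * (2 * i + 1)) (2 ^ R * (2 * i + 1) + 2 ^ R)) := by
      rw [Finset.disjoint_left]
      intro j hj hj'
      rw [Finset.mem_Ico] at hj hj'
      have h2 : (2 : ℤ) ^ R * (2 * i + 1) = 2 ^ R * (2 * i) + 2 ^ R := by ring
      omega
    have e2 : n + 1 + R = n + (R + 1) := by ring
    rw [e1, Finset.filter_union, Finset.card_union_of_disjoint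
      (Finset.disjoint_filter_filter hd), e2]

lemma dist_descendant {U : Type*} {Y : SimpleGraph U} (hY : Y.Connected) (F : ℕ → ℤ → U) {K : ℕ}
    (hstep : ∀ (n : ℕ) (i : ℤ), Y.dist (F n i) (F (n + 1) (2 * i)) ≤ K ∧
      Y.dist (F n i) (F (n + 1) (2 * i + 1)) ≤ K) :
    ∀ (R n : ℕ) (i j : ℤ), j ∈ Finset.Ico (2 ^ R * i) (2 ^ R * i + 2 ^ R) →
      Y.dist (F n i) (F (n + R) j) ≤ K * R
  | 0, n, i, j, hj => by
    rw [Finset.mem_Ico] at hj
    have : j = i := by simp only [pow_zero, one_mul] at hj; omega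
    subst this
    simp
  | R + 1, n, i, j, hj => by
    rw [Finset.mem_Ico] at hj
    have h1 : (2 : ℤ) ^ (R + 1) * i = 2 ^ R * (2 * i) := by ring
    have h2 : (2 : ℤ) ^ R * (2 * i + 1) = 2 ^ R * (2 * i) + 2 ^ R := by ring
    have h3 : (2 : ℤ) ^ (R + 1) = 2 ^ R + 2 ^ R := by ring
    rw [h1, h3] at hj
    have e2 : n + (R + 1) = n + 1 + R := by ring
    rw [e2, Nat.mul_add, mul_one]
    by_cases hlt : j < 2 ^ R * (2 * i) + 2 ^ R
    · have h4 := dist_descendant hY F hstep R (n + 1) (2 * i) j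
        (by rw [Finset.mem_Ico]; exact ⟨hj.1, hlt⟩)
      have h5 : Y.dist (F n i) (F (n + 1 + R) j) ≤ Y.dist (F n i) (F (n + 1) (2 * i)) +
        Y.dist (F (n + 1) (2 * i)) (F (n + 1 + R) j) := hY.dist_triangle
      have h6 := (hstep n i).1
      omega
    · have h4 := dist_descendant hY F hstep R (n + 1) (2 * i + 1) j
        (by rw [Finset.mem_Ico, h2]; omega)
      have h5 : Y.dist (F n i) (F (n + 1 + R) j) ≤ Y.dist (F n i) (F (n + 1) (2 * i + 1)) +
        Y.dist (F (n + 1) (2 * i + 1)) (F (n + 1 + R) j) := hY.dist_triangle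
      have h6 := (hstep n i).2
      omega

/-! ### The points of the upper half plane -/

/-- The point of the upper half plane corresponding to the dyadic box `(n, i)`. -/
noncomputable def pt (n : ℕ) (i : ℤ) : ℍ :=
  ⟨⟨(i : ℝ) / 2 ^ n, 1 / 2 ^ n⟩, by simp⟩

lemma pt_re (n : ℕ) (i : ℤ) : (pt n i).re = (i : ℝ) / 2 ^ n := rfl

lemma pt_im (n : ℕ) (i : ℤ) : (pt n i).im = 1 / 2 ^ n := rfl

lemma dist_coe_sq (z w : ℍ) : dist (z : ℂ) w ^ 2 = (z.re - w.re) ^ 2 + (z.im - w.im) ^ 2 := by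
  rw [Complex.dist_eq, ← Complex.normSq_eq_norm_sq, Complex.normSq_apply]
  simp only [Complex.sub_re, Complex.sub_im, coe_re, coe_im]
  ring

lemma dist_le_one_of_sq {z w : ℍ} (h : (z.re - w.re) ^ 2 + (z.im - w.im) ^ 2 ≤ z.im * w.im) :
    dist z w ≤ 1 := by
  refine (dist_le_dist_coe_div_sqrt z w).trans ?_
  have hpos : 0 < z.im * w.im := mul_pos z.im_pos w.im_pos
  rw [div_le_one (Real.sqrt_pos.2 hpos)]
  apply Real.le_sqrt_of_sq_le
  rw [dist_coe_sq]
  exact h

lemma dist_pt_row (n : ℕ) (i : ℤ) : dist (pt n i) (pt n (i + 1)) ≤ 1 := by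
  apply dist_le_one_of_sq
  rw [pt_re, pt_re, pt_im, pt_im]
  push_cast
  have : (0 : ℝ) < 2 ^ n := by positivity
  field_simp
  ring_nf
  rfl

lemma dist_pt_left (n : ℕ) (i : ℤ) : dist (pt n i) (pt (n + 1) (2 * i)) ≤ 1 := by
  apply dist_le_one_of_sq
  rw [pt_re, pt_re, pt_im, pt_im]
  push_cast
  have : (0 : ℝ) < 2 ^ n := by positivity
  rw [pow_succ (2 : ℝ) n]
  field_simp
  ring_nf
  norm_num

lemma dist_pt_right (n : ℕ) (i : ℤ) : dist (pt n i) (pt (n + 1) (2 * i + 1)) ≤ 1 := by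
  apply dist_le_one_of_sq
  rw [pt_re, pt_re, pt_im, pt_im]
  push_cast
  have : (0 : ℝ) < 2 ^ n := by positivity
  rw [pow_succ (2 : ℝ) n]
  field_simp
  ring_nf
  norm_num

lemma abs_sub_le_of_dist_le {n : ℕ} {i j : ℤ} {r : ℝ} (h : dist (pt n i) (pt n j) ≤ r) :
    |(i : ℝ) - j| ≤ Real.exp r - 1 := by
  have h1 := dist_coe_le (pt n i) (pt n j)
  have h2 : dist (pt n i : ℂ) (pt n j : ℂ) = |(i : ℝ) - j| / 2 ^ n := by
    have h3 := dist_coe_sq (pt n i) (pt n j)
    rw [pt_re, pt_re, pt_im, pt_im, sub_self] at h3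
    have h4 : dist (pt n i : ℂ) (pt n j : ℂ) ^ 2 = (|(i : ℝ) - j| / 2 ^ n) ^ 2 := by
      rw [h3, div_pow, sq_abs]; ring
    exact (sq_eq_sq₀ dist_nonneg (by positivity)).1 h4
  rw [h2, pt_im] at h1
  have hpos : (0 : ℝ) < 2 ^ n := by positivity
  have h5 : |(i : ℝ) - j| ≤ Real.exp (dist (pt n i) (pt n j)) - 1 := by
    have h6 : |(i : ℝ) - j| / 2 ^ n * 2 ^ n ≤
        1 / 2 ^ n * (Real.exp (dist (pt n i) (pt n j)) - 1) * 2 ^ n :=
      mul_le_mul_of_nonneg_right h1 hpos.le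
    rw [div_mul_cancel₀ _ hpos.ne'] at h6
    calc |(i : ℝ) - j| ≤ 1 / 2 ^ n * (Real.exp (dist (pt n i) (pt n j)) - 1) * 2 ^ n := h6
      _ = _ := by field_simp
  have h7 := Real.exp_le_exp.2 h
  linarith

lemma card_le_of_diam (S : Finset ℤ) (M : ℕ) (h : ∀ i ∈ S, ∀ j ∈ S, |i - j| ≤ M) :
    S.card ≤ 2 * M + 1 := by
  rcases S.eq_empty_or_nonempty with rfl | ⟨j0, hj0⟩
  · simp
  · have hsub : S ⊆ Finset.Icc (j0 - M) (j0 + M) := by
      intro i hi
      have := h i hi j0 hj0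
      rw [abs_le] at this
      rw [Finset.mem_Icc]
      omega
    refine (Finset.card_le_card hsub).trans ?_
    rw [Int.card_Icc]
    omega

/-- **Theorem.**  Let `G` be a connected graph of bounded degree that is quasi-isometric to the
hyperbolic plane, `T` the 3-regular tree, and `Y` a connected graph of bounded degree and of
subexponential growth.  Then there is no regular map from `G` to the Cartesian product
`T □ Y`. -/
theorem no_regular_map {V W U : Type*}
    (G : SimpleGraph V) (_hG : G.Connected) (_hGdeg : BoundedDegree G)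
    (hGqi : QuasiIsometricToHyperbolicPlane G)
    (T : SimpleGraph W) (hT : T.IsTree) (hT3 : ∀ w : W, (T.neighborSet w).encard = 3)
    (Y : SimpleGraph U) (hY : Y.Connected) (_hYdeg : BoundedDegree Y)
    (hYsub : SubexponentialGrowth Y) :
    ¬ ∃ f : V → W × U, IsRegularMap G (T □ Y) f := by
  classical
  rintro ⟨f, κ, hκ1, hlip, hfib⟩
  obtain ⟨ψ, A, B, hA, hB, hqi, hdense⟩ := hGqi
  choose x hx using fun (n : ℕ) (i : ℤ) => hdense (pt n i)
  -- distances in the product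
  have hprod : ∀ a b : W × U, (T □ Y).dist a b = T.dist a.1 b.1 + Y.dist a.2 b.2 := by
    intro a b
    have h1 := edist_boxProd (G := T) (H := Y) a b
    rw [← ((hT.connected.boxProd hY).preconnected a b).coe_dist_eq_edist,
      ← (hT.connected.preconnected a.1 b.1).coe_dist_eq_edist,
      ← (hY.preconnected a.2 b.2).coe_dist_eq_edist] at h1
    exact_mod_cast h1
  set K : ℕ := ⌈κ * (A * (3 * B + 1)) + κ⌉₊ with hK
  have hnear : ∀ (n n' : ℕ) (i i' : ℤ), dist (pt n i) (pt n' i') ≤ 1 →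
      T.dist (f (x n i)).1 (f (x n' i')).1 ≤ K ∧ Y.dist (f (x n i)).2 (f (x n' i')).2 ≤ K := by
    intro n n' i i' h
    have h1 : dist (ψ (x n i)) (ψ (x n' i')) ≤ 2 * B + 1 := by
      calc dist (ψ (x n i)) (ψ (x n' i')) ≤ dist (ψ (x n i)) (pt n i) + dist (pt n i) (pt n' i') +
            dist (pt n' i') (ψ (x n' i')) := dist_triangle4 _ _ _ _
        _ ≤ B + 1 + B := by
            gcongr
            · rw [_root_.dist_comm]; exact hx n i
            · exact hx n' i'
        _ = 2 * B + 1 := by ring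
    have h2 := (hqi (x n i) (x n' i')).1
    have hA0 : 0 < A := by linarith
    have h3 : (G.dist (x n i) (x n' i') : ℝ) ≤ A * (3 * B + 1) := by
      have h4 : A⁻¹ * (G.dist (x n i) (x n' i') : ℝ) ≤ 3 * B + 1 := by linarith
      calc (G.dist (x n i) (x n' i') : ℝ) = A * (A⁻¹ * G.dist (x n i) (x n' i')) := by
            field_simp
        _ ≤ _ := mul_le_mul_of_nonneg_left h4 hA0.le
    have h5 := hlip (x n i) (x n' i')
    rw [hprod] at h5
    have h6 : ((T.dist (f (x n i)).1 (f (x n' i')).1 + Y.dist (f (x n i)).2 (f (x n' i')).2 : ℕ) : ℝ)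
        ≤ κ * (A * (3 * B + 1)) + κ := by
      refine h5.trans ?_
      have : κ * (G.dist (x n i) (x n' i') : ℝ) ≤ κ * (A * (3 * B + 1)) :=
        mul_le_mul_of_nonneg_left h3 (by linarith)
      linarith
    have h7 : T.dist (f (x n i)).1 (f (x n' i')).1 + Y.dist (f (x n i)).2 (f (x n' i')).2 ≤ K := by
      have := h6.trans (Nat.le_ceil _)
      exact_mod_cast this
    omega
  -- rows are almost injective
  set M : ℕ := ⌈Real.exp (2 * B)⌉₊ with hM
  have hrowfib : ∀ (n : ℕ) (i j : ℤ), x n i = x n j → |i - j| ≤ M := by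
    intro n i j h
    have h1 : dist (pt n i) (pt n j) ≤ 2 * B := by
      calc dist (pt n i) (pt n j) ≤ dist (pt n i) (ψ (x n i)) + dist (ψ (x n i)) (pt n j) :=
            dist_triangle _ _ _
        _ ≤ B + B := by
            gcongr
            · exact hx n i
            · rw [h, _root_.dist_comm]; exact hx n j
        _ = 2 * B := by ring
    have h2 := abs_sub_le_of_dist_le h1
    have h3 : ((|i - j| : ℤ) : ℝ) ≤ M := by
      push_cast
      have h4 := Nat.le_ceil (Real.exp (2 * B))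
      linarith
    exact_mod_cast h3
  -- fibre bound
  set N : ℕ := (2 * M + 1) * ⌈κ⌉₊ with hN
  have hfibre : ∀ (S : Finset ℤ) (n : ℕ) (z : W × U), (∀ j ∈ S, f (x n j) = z) → S.card ≤ N := by
    intro S n z hS
    obtain ⟨hfin, hcard⟩ := hfib z
    have h1 : S.card ≤ (2 * M + 1) * hfin.toFinset.card := by
      apply Finset.card_le_mul_card_image_of_maps_to (f := fun j => x n j)
      · intro j hj
        simpa using hS j hj
      · intro v _
        apply card_le_of_diam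
        intro i hi j hj
        rw [Finset.mem_filter] at hi hj
        exact hrowfib n i j (hi.2.trans hj.2.symm)
    refine h1.trans (Nat.mul_le_mul_left _ ?_)
    rw [← Set.ncard_eq_toFinset_card _ hfin]
    exact_mod_cast hcard.trans (Nat.le_ceil κ)
  set F : ℕ → ℤ → W := fun n i => (f (x n i)).1 with hF
  set F2 : ℕ → ℤ → U := fun n i => (f (x n i)).2 with hF2
  have hstep : ∀ (n : ℕ) (i : ℤ), T.dist (F n i) (F (n + 1) (2 * i)) ≤ K ∧
      T.dist (F n i) (F (n + 1) (2 * i + 1)) ≤ K := fun n i =>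
    ⟨(hnear _ _ _ _ (dist_pt_left n i)).1, (hnear _ _ _ _ (dist_pt_right n i)).1⟩
  have hstep2 : ∀ (n : ℕ) (i : ℤ), Y.dist (F2 n i) (F2 (n + 1) (2 * i)) ≤ K ∧
      Y.dist (F2 n i) (F2 (n + 1) (2 * i + 1)) ≤ K := fun n i =>
    ⟨(hnear _ _ _ _ (dist_pt_left n i)).2, (hnear _ _ _ _ (dist_pt_right n i)).2⟩
  have hrow : ∀ (n : ℕ) (i : ℤ), T.dist (F n i) (F n (i + 1)) ≤ K := fun n i =>
    (hnear _ _ _ _ (dist_pt_row n i)).1
  -- growth of the fibres
  have hgrow : ∀ (R n : ℕ) (i : ℤ) (t : W) (C ε : ℝ),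
      (∀ (y : U) (r : ℝ), 0 ≤ r → {y' : U | (Y.dist y y' : ℝ) ≤ r}.Finite ∧
        ({y' : U | (Y.dist y y' : ℝ) ≤ r}.ncard : ℝ) ≤ C * Real.exp (ε * r)) →
      (cnt F {t} R n i : ℝ) ≤ N * (C * Real.exp (ε * (K * R))) := by
    intro R n i t C ε hC
    obtain ⟨hfin, hcard⟩ := hC (F2 n i) ((K : ℝ) * R) (by positivity)
    rw [cnt_eq_card]
    have h1 : ((Finset.Ico (2 ^ R * i) (2 ^ R * i + 2 ^ R)).filter
        fun j => F (n + R) j ∈ ({t} : Set W)).card ≤ N * hfin.toFinset.card := by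
      apply Finset.card_le_mul_card_image_of_maps_to (f := fun j => F2 (n + R) j)
      · intro j hj
        rw [Finset.mem_filter] at hj
        have h2 := dist_descendant hY F2 hstep2 R n i j hj.1
        simp only [Set.Finite.mem_toFinset, Set.mem_ofPred_eq]
        exact_mod_cast h2
      · intro y _
        apply hfibre _ (n + R) (t, y)
        intro j hj
        rw [Finset.mem_filter, Finset.mem_filter] at hj
        exact Prod.ext (by simpa using hj.1.2) hj.2
    calc ((((Finset.Ico (2 ^ R * i) (2 ^ R * i + 2 ^ R)).filter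
          fun j => F (n + R) j ∈ ({t} : Set W)).card : ℕ) : ℝ)
        ≤ ((N * hfin.toFinset.card : ℕ) : ℝ) := by exact_mod_cast h1
      _ = N * ({y' : U | (Y.dist (F2 n i) y' : ℝ) ≤ (K : ℝ) * R}.ncard : ℝ) := by
          rw [Set.ncard_eq_toFinset_card _ hfin]; push_cast; rfl
      _ ≤ N * (C * Real.exp (ε * (K * R))) := by
          gcongr
  -- the growth function
  have hbdd : ∀ R : ℕ, BddAbove (Set.range fun p : ℕ × ℤ × W => (cnt F {p.2.2} R p.1 p.2.1 : ℝ)) := by
    intro R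
    refine ⟨2 ^ R, ?_⟩
    rintro _ ⟨p, rfl⟩
    have := cnt_le (F := F) {p.2.2} R p.1 p.2.1
    simp only
    exact_mod_cast this
  have hne : Nonempty (ℕ × ℤ × W) := ⟨(0, 0, F 0 0)⟩
  refine core (F := F) (κ := K) hT hT3 hstep hrow
    (φ := fun R => sSup (Set.range fun p : ℕ × ℤ × W => (cnt F {p.2.2} R p.1 p.2.1 : ℝ)))
    (fun R n i t => le_csSup (hbdd R) ⟨(n, i, t), rfl⟩) ?_
  intro ε hε
  have hK1 : (0 : ℝ) < K + 1 := by positivity
  obtain ⟨C, hC⟩ := hYsub (ε / (K + 1)) (by positivity)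
  have hC0 : 0 ≤ C := by
    have h1 := (hC (F2 0 0) 0 le_rfl).2
    simp only [mul_zero, Real.exp_zero, mul_one] at h1
    exact le_trans (Nat.cast_nonneg _) h1
  refine ⟨N * C, fun R => ?_⟩
  apply csSup_le (Set.range_nonempty _)
  rintro _ ⟨p, rfl⟩
  refine (hgrow R p.1 p.2.1 p.2.2 C _ hC).trans ?_
  rw [mul_assoc]
  have h2 : ε / (K + 1) * (K * R) ≤ ε * R := by
    rw [div_mul_eq_mul_div, div_le_iff₀ hK1]
    have : (0 : ℝ) ≤ ε * R := by positivity
    nlinarith
  have h3 := Real.exp_le_exp.2 h2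
  gcongr

end Pool.Agent.Lib.MP_7da865_gt
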